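import Pool.Agent.helper60.DA.SpecV

/-!
# Row dv:PHV: values of `ph` in `ZMod p`
-/

set_option autoImplicit false

namespace Pool.Agent.helper60.DA

open Polynomial Finset Pool.Agent.helper60.DK

/-- `(a^p - a)/p` -/
private def PHV_E (p : ℕ) (a : ℤ) : ℤ := (a ^ p - a) / (p : ℤ)

private theorem PHV_E_spec (p : ℕ) [hp : Fact p.Prime] (a : ℤ) : (p : ℤ) * PHV_E p a = a ^ p - a := by
  unfold PHV_E
  apply Int.mul_ediv_cancel'
  rw [← ZMod.intCast_zmod_eq_zero_iff_dvd]
  push_cast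
  rw [ZMod.pow_card, sub_self]

private theorem PHV_p0 (p : ℕ) [hp : Fact p.Prime] : (p : ℤ) ≠ 0 := by exact_mod_cast hp.out.ne_zero

private theorem PHV_mul (p : ℕ) [hp : Fact p.Prime] (a b : ℤ) :
    ((PHV_E p (a * b) : ℤ) : ZMod p) = a * (PHV_E p b : ℤ) + b * (PHV_E p a : ℤ) := by
  have h : PHV_E p (a * b) = a * PHV_E p b + b * PHV_E p a + p * (PHV_E p a * PHV_E p b) := by
    apply mul_left_cancel₀ (PHV_p0 p)
    have ha := PHV_E_spec p a
    have hb := PHV_E_spec p b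
    have ha' : a ^ p = a + p * PHV_E p a := by rw [ha]; ring
    have hb' : b ^ p = b + p * PHV_E p b := by rw [hb]; ring
    rw [PHV_E_spec, mul_pow, ha', hb']
    ring
  rw [h]
  push_cast
  simp

private theorem PHV_neg (p : ℕ) [hp : Fact p.Prime] (h5 : 5 ≤ p) (a : ℤ) :
    PHV_E p (-a) = - PHV_E p a := by
  apply mul_left_cancel₀ (PHV_p0 p)
  have hodd : Odd p := hp.out.odd_of_ne_two (by omega)
  rw [PHV_E_spec, mul_neg, PHV_E_spec, hodd.neg_pow]
  ring

private theorem PHV_zero (p : ℕ) [hp : Fact p.Prime] : PHV_E p 0 = 0 := by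
  apply mul_left_cancel₀ (PHV_p0 p)
  rw [PHV_E_spec, zero_pow hp.out.ne_zero]
  ring

private theorem PHV_one (p : ℕ) [hp : Fact p.Prime] : PHV_E p 1 = 0 := by
  apply mul_left_cancel₀ (PHV_p0 p)
  rw [PHV_E_spec, one_pow]
  ring

private theorem PHV_fq (p : ℕ) [hp : Fact p.Prime] (a : ℤ) (h : ¬ (p : ℤ) ∣ a) :
    PHV_E p a = a * fq p a := by
  apply mul_left_cancel₀ (PHV_p0 p)
  have h1 := fq_spec h
  have h2 : a ^ p = a ^ (p - 1) * a := by
    rw [← pow_succ, Nat.sub_add_cancel hp.out.one_lt.le]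
  rw [PHV_E_spec, h2]
  linear_combination (-a) * h1

/-- the value of `ph` at integers -/
private theorem PHV_ph (p : ℕ) [hp : Fact p.Prime] (a b : ℤ) :
    ph p (a : ZMod p) (b : ZMod p) =
      (PHV_E p (a + b) : ℤ) - (PHV_E p a : ℤ) - (PHV_E p b : ℤ) := by
  have h : ph p a b = PHV_E p (a + b) - PHV_E p a - PHV_E p b := by
    apply mul_left_cancel₀ (PHV_p0 p)
    have h0 := ph_spec (p := p) a b
    rw [h0, mul_sub, mul_sub, PHV_E_spec, PHV_E_spec, PHV_E_spec]
    ring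
  have h1 := map_ph (p := p) (Int.castRingHom (ZMod p)) a b
  simp only [eq_intCast] at h1
  rw [← h1, h]
  push_cast
  ring

private theorem PHV_hom (p : ℕ) [hp : Fact p.Prime] (c a b : ZMod p) :
    ph p (c * a) (c * b) = c * ph p a b := by
  have h : c = c ^ p := (ZMod.pow_card c).symm
  conv_rhs => rw [h]
  unfold ph
  rw [mul_sum]
  refine sum_congr rfl fun j hj => ?_
  have hj' := mem_Ioo.1 hj
  have h2 : c ^ p = c ^ j * c ^ (p - j) := by rw [← pow_add]; congr 1; omega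
  rw [h2, mul_pow, mul_pow]
  ring

theorem PHV : PHV_stmt := by
  intro p hp h5
  have hnd : ∀ a : ℤ, 0 < a → a < 5 → ¬ (p : ℤ) ∣ a := fun a h0 h1 h => by
    have := Int.le_of_dvd h0 h
    have : (5 : ℤ) ≤ p := by exact_mod_cast h5
    linarith
  have e0 : ((PHV_E p 0 : ℤ) : ZMod p) = 0 := by rw [PHV_zero]; simp
  have e1 : ((PHV_E p 1 : ℤ) : ZMod p) = 0 := by rw [PHV_one]; simp
  have e2 : ((PHV_E p 2 : ℤ) : ZMod p) = 2 * Q2 p := by
    rw [PHV_fq p 2 (hnd 2 (by norm_num) (by norm_num))]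
    push_cast
    rfl
  have e3 : ((PHV_E p 3 : ℤ) : ZMod p) = 3 * Q3 p := by
    rw [PHV_fq p 3 (hnd 3 (by norm_num) (by norm_num))]
    push_cast
    rfl
  have e4 : ((PHV_E p 4 : ℤ) : ZMod p) = 8 * Q2 p := by
    have h := PHV_mul p 2 2
    rw [show (2 : ℤ) * 2 = 4 by norm_num] at h
    rw [h, e2]
    push_cast
    ring
  have e8 : ((PHV_E p 8 : ℤ) : ZMod p) = 24 * Q2 p := by
    have h := PHV_mul p 2 4
    rw [show (2 : ℤ) * 4 = 8 by norm_num] at h
    rw [h, e2, e4]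
    push_cast
    ring
  have e9 : ((PHV_E p 9 : ℤ) : ZMod p) = 18 * Q3 p := by
    have h := PHV_mul p 3 3
    rw [show (3 : ℤ) * 3 = 9 by norm_num] at h
    rw [h, e3]
    push_cast
    ring
  have en : ∀ a : ℤ, ((PHV_E p (-a) : ℤ) : ZMod p) = - (PHV_E p a : ℤ) := fun a => by
    rw [PHV_neg p h5]
    push_cast
    rfl
  have h2 : (2 : ZMod p) ≠ 0 := by
    have := hnd 2 (by norm_num) (by norm_num)
    rw [← ZMod.intCast_zmod_eq_zero_iff_dvd] at this
    exact_mod_cast this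
  have h4 : (4 : ZMod p) ≠ 0 := by
    have := hnd 4 (by norm_num) (by norm_num)
    rw [← ZMod.intCast_zmod_eq_zero_iff_dvd] at this
    exact_mod_cast this
  have p1 : ph p (-1 : ZMod p) 2 = -2 * Q2 p := by
    have h := PHV_ph p (-1) 2
    rw [show (-1 : ℤ) + 2 = 1 by norm_num, en, e1, e2] at h
    push_cast at h
    rw [h]
    ring
  have p2 : ph p (-1 : ZMod p) 4 = 3 * Q3 p - 8 * Q2 p := by
    have h := PHV_ph p (-1) 4
    rw [show (-1 : ℤ) + 4 = 3 by norm_num, en, e1, e3, e4] at h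
    push_cast at h
    rw [h]
    ring
  refine ⟨?_, ?_, p1, ?_, ?_, ?_, ?_, ?_, ?_, ?_, ?_, ?_, ?_, ?_⟩
  · have h := PHV_ph p (-1) (-2)
    rw [show (-1 : ℤ) + (-2) = -3 by norm_num, en, en, en, e1, e2, e3] at h
    push_cast at h
    rw [h]
    ring
  · have h := PHV_ph p (-1) 1
    rw [show (-1 : ℤ) + 1 = 0 by norm_num, en, e1, e0] at h
    push_cast at h
    rw [h]
    ring
  · have h := PHV_ph p 1 (-2)
    rw [show (1 : ℤ) + (-2) = -1 by norm_num, en, en, e1, e2] at h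
    push_cast at h
    rw [h]
    ring
  · have h := PHV_ph p 1 1
    rw [show (1 : ℤ) + 1 = 2 by norm_num, e1, e2] at h
    push_cast at h
    rw [h]
    ring
  · have h := PHV_ph p (-2) (-2)
    rw [show (-2 : ℤ) + (-2) = -4 by norm_num, en, en, e2, e4] at h
    push_cast at h
    rw [h]
    ring
  · have h := PHV_ph p (-2) 1
    rw [show (-2 : ℤ) + 1 = -1 by norm_num, en, en, e1, e2] at h
    push_cast at h
    rw [h]
    ring
  · have h := PHV_ph p (-2) 2
    rw [show (-2 : ℤ) + 2 = 0 by norm_num, en, e0, e2] at h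
    push_cast at h
    rw [h]
    ring
  · have h := PHV_ph p 1 8
    rw [show (1 : ℤ) + 8 = 9 by norm_num, e1, e8, e9] at h
    push_cast at h
    rw [h]
    ring
  · have h := PHV_ph p 2 1
    rw [show (2 : ℤ) + 1 = 3 by norm_num, e1, e2, e3] at h
    push_cast at h
    rw [h]
    ring
  · intro a
    unfold ph
    constructor
    · refine sum_eq_zero fun j hj => ?_
      have hj' := mem_Ioo.1 hj
      rw [zero_pow (by omega)]
      ring
    · refine sum_eq_zero fun j hj => ?_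
      have hj' := mem_Ioo.1 hj
      rw [zero_pow (show p - j ≠ 0 by omega)]
      ring
  · intro a
    have h := PHV_ph p (a.val : ℤ) (-(a.val : ℤ))
    rw [show (a.val : ℤ) + (-(a.val : ℤ)) = 0 by ring, en, e0] at h
    have ha : (((a.val : ℕ) : ℤ) : ZMod p) = a := by
      rw [Int.cast_natCast, ZMod.natCast_zmod_val]
    have ha' : ((-((a.val : ℕ) : ℤ) : ℤ) : ZMod p) = -a := by
      rw [Int.cast_neg, ha]
    rw [ha, ha'] at h
    rw [h]
    ring
  · have h := PHV_hom p (1 / 4) (-1) 4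
    rw [p2] at h
    have e : (1 / 4 * 4 : ZMod p) = 1 := by field_simp
    rw [e] at h
    rw [show (-1 / 4 : ZMod p) = 1 / 4 * (-1) by ring, h]
    ring
  · have h := PHV_hom p (1 / 2) (-1) 2
    rw [p1] at h
    have e : (1 / 2 * 2 : ZMod p) = 1 := by field_simp
    rw [e] at h
    rw [show (-1 / 2 : ZMod p) = 1 / 2 * (-1) by ring, h]
    field_simp

end Pool.Agent.helper60.DA
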